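import Pool.Agent.X47.DL6

/-!
# Extremal species trees for duplication-loss history counts
-/

open Filter Topology

namespace Pool.Agent.Results.MP_f5c34b_co.ExtremalTrees

open Pool.Agent.X47.DL

/-- **Q1 holds.** For every `k` and all large `n`, among the species trees of size `k` the balanced
tree has the fewest and the caterpillar has the most duplication-loss histories of size `n`; the
inequalities are eventually strict, and strict for the growth factors, for every other tree. -/
theorem result :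
    (∀ k : ℕ, 1 ≤ k → ∃ N : ℕ, ∀ n : ℕ, N ≤ n → ∀ S : STree, S.size = k →
      h (BT k) n ≤ h S n ∧ h S n ≤ h (CT k) n) ∧
    (∀ S : STree, ¬ IsCat S → alpha S < alpha (CT S.size) ∧
      ∀ᶠ n in atTop, h S n < h (CT S.size) n) ∧
    (∀ S : STree, ¬ Balanced S → alpha (BT S.size) < alpha S ∧
      ∀ᶠ n in atTop, h (BT S.size) n < h S n) ∧
    (∀ S : STree, (IsCat S → H S = H (CT S.size)) ∧ (Balanced S → H S = H (BT S.size))) ∧
    (∀ S : STree, Tendsto (fun n : ℕ => (h S n) ^ (1 / (n : ℝ))) atTop (𝓝 (alpha S))) ∧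
    (∀ k : ℕ, 1 ≤ k → (BT k).size = k ∧ Balanced (BT k) ∧ (CT k).size = k) := by
  refine ⟨fun k _ => extremal k, fun S hS => ⟨?_, eventually_lt (rho_ct_lt hS)⟩,
    fun S hS => ⟨?_, eventually_lt (rho_lt_bt hS)⟩, fun S => ⟨isCat_H, balanced_H⟩,
    root_tendsto, fun k hk => ⟨BT_size hk, BT_balanced k, CT_size hk⟩⟩
  · exact inv_strictAnti₀ (rho_pos _) (rho_ct_lt hS)
  · exact inv_strictAnti₀ (rho_pos _) (rho_lt_bt hS)

end Pool.Agent.Results.MP_f5c34b_co.ExtremalTrees
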