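import Pool.Agent.X47.DL3

/-!
# Growth factors of duplication-loss histories: caterpillars and balanced species trees
-/

open Filter

namespace Pool.Agent.Results.MP_f5c34b_co.GrowthOrders

open Pool.Agent.X47.DL

/-- **Q2 holds.** The growth factor of the caterpillar is superlinear (in fact of the exact order
`k ^ 2`), and the growth factor of the balanced species tree is linear. -/
theorem result :
    (Tendsto (fun k : ℕ => alpha (CT k) / k) atTop atTop ∧
      ∃ c₁ c₂ : ℝ, 0 < c₁ ∧ c₁ ≤ c₂ ∧ ∀ k : ℕ, 1 ≤ k →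
        c₁ * k ≤ alpha (BT k) ∧ alpha (BT k) ≤ c₂ * k) ∧
    (∀ k : ℕ, 1 ≤ k → (k : ℝ) ^ 2 / 6 ≤ alpha (CT k) ∧ alpha (CT k) ≤ 102 * (k : ℝ) ^ 2) ∧
    (∀ S : STree, 2 * (S.size : ℝ) ≤ alpha S) ∧
    (∀ T : STree, Balanced T → alpha T ≤ 84 * (T.size : ℝ)) ∧
    (∀ k : ℕ, 1 ≤ k → (BT k).size = k ∧ Balanced (BT k) ∧ (CT k).size = k) := by
  refine ⟨⟨?_, 2, 84, by norm_num, by norm_num, fun k hk => ⟨?_, ?_⟩⟩, fun k hk =>
    ⟨alpha_CT_ge hk, alpha_CT_le hk⟩, alpha_ge, fun T hT => alpha_bal_le hT, fun k hk =>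
    ⟨BT_size hk, BT_balanced k, CT_size hk⟩⟩
  · have h1 : Tendsto (fun k : ℕ => (k : ℝ) / 6) atTop atTop :=
      tendsto_natCast_atTop_atTop.atTop_div_const (by norm_num)
    refine tendsto_atTop_mono' atTop ?_ h1
    filter_upwards [eventually_ge_atTop 1] with k hk
    have h2 := alpha_CT_ge hk
    have hk' : (1 : ℝ) ≤ k := by exact_mod_cast hk
    rw [le_div_iff₀ (by linarith)]
    nlinarith
  · have := alpha_ge (BT k)
    rwa [BT_size hk] at this
  · have := alpha_bal_le (BT_balanced k)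
    rwa [BT_size hk] at this

end Pool.Agent.Results.MP_f5c34b_co.GrowthOrders
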